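import Pool.Agent.T6.H15.BB.GenDefs

/-!
# Abel–Jacobi maps and algebraically trivial cycles: definitions

The Chow theories `C` and the Weil cohomology theories `W` are those of the starting file
`Pool.Agent.R903.Chow`.
-/

open CategoryTheory CategoryTheory.Limits AlgebraicGeometry
open Pool.Agent.H914 Pool.Agent.H914.VarClass Pool.Agent.H914.VarClass.Obj Pool.Agent.R903
open Pool.Agent.T6.H15.BB

universe u v w

namespace Pool.Agent.T6.H15.AJ

variable {k : Type u} [Field k] {𝒱 : VarClass k} {C : ChowTheory.{u, v} 𝒱}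

/-- The data of Abel–Jacobi maps: vector spaces `J X m` over the rational numbers, for example the
intermediate Jacobians `J^m(X) ⊗ ℚ`, maps `aj` (only the values on the homologically trivial classes in
`CH^m(X)` matter), and for each correspondence `γ` from `X` to `Y` maps
`corr m n γ : J X m → J Y n` (they matter only if `γ` is in `CH^c(X × Y)` with
`m + c = n + dim X`). -/
structure AJData (C : ChowTheory.{u, v} 𝒱) where
  /-- `J^m(X) ⊗ ℚ` -/
  J : 𝒱.Obj → ℕ → Type v
  [grp : ∀ X m, AddCommGroup (J X m)]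
  [mod : ∀ X m, Module ℚ (J X m)]
  /-- the Abel–Jacobi map -/
  aj : ∀ (X : 𝒱.Obj) (m : ℕ), C.CH X → J X m
  /-- the map induced by a correspondence -/
  corr : ∀ {X Y : 𝒱.Obj} (m n : ℕ), C.CH (X.prod Y) → (J X m →ₗ[ℚ] J Y n)

attribute [instance] AJData.grp AJData.mod

/-- The correspondence `∑ j, γ j ∘ p j` from `T` to `Y`, for `p j` from `T` to `E j` and `γ j` from
`E j` to `Y`. -/
noncomputable def sumComp {ι : Type} [Fintype ι] {T Y : 𝒱.Obj} {E : ι → 𝒱.Obj}
    (p : ∀ j, C.CH (T.prod (E j))) (γ : ∀ j, C.CH ((E j).prod Y)) : C.CH (T.prod Y) :=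
  ∑ j, compose C (p j) (γ j)

/-- Poincaré's complete reducibility theorem, for the Jacobians of the curves `E i`. Let `γ i` be
correspondences in `CH^c(E i × Y)`. There are correspondences `p i j` in `CH^1(E i × E j)` such that
all `∑ j, γ j ∘ p i j` act as zero on `H^1(E i)` and such that `p` acts as the identity on the kernel
of the map `(t i) ↦ ∑ i, (γ i)_* (t i)` from the sum of the `J^1(E i) ⊗ ℚ` to `J^c(Y) ⊗ ℚ`.
(In other words, up to isogeny the kernel is an abelian variety, and a direct factor of the product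
of the Jacobians.) -/
def AJData.Reducible (A : AJData C) (W : WeilTheory.{u, v, w} C) : Prop :=
  ∀ (ι : Type) (_ : Fintype ι) (E : ι → 𝒱.Obj), (∀ i, (E i).dim = 1) →
    ∀ (Y : 𝒱.Obj) (c : ℕ) (γ : ∀ i, C.CH ((E i).prod Y)), (∀ i, InCH C ((E i).prod Y) c (γ i)) →
      ∃ p : ∀ i j, C.CH ((E i).prod (E j)), (∀ i j, InCH C ((E i).prod (E j)) 1 (p i j)) ∧
        (∀ i, Kills W (sumComp (p i) γ) 1) ∧
        ∀ t : ∀ i, A.J (E i) 1, ∑ i, A.corr 1 c (γ i) (t i) = 0 →
          ∀ j, ∑ i, A.corr 1 1 (p i j) (t i) = t j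

/-- **Abel–Jacobi maps** for the varieties of the class `𝒱`: additive maps on the homologically
trivial classes, compatible with correspondences; a correspondence which acts as zero on
`H^(2m-1)(X)` acts as zero on `J X m`; the Abel–Jacobi maps of curves are injective on the
homologically trivial divisor classes; and Poincaré's complete reducibility theorem holds. If `k` is a
subfield of the complex numbers and `W` is Betti cohomology, then the Abel–Jacobi maps
`CH^m_hom(X) ⊗ ℚ → J^m(X_ℂ) ⊗ ℚ` have these properties. -/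
structure AJTheory (W : WeilTheory.{u, v, w} C) extends AJData.{u, v} C where
  aj_add : ∀ (X : 𝒱.Obj) (m : ℕ) (x y : C.CH X), HomTrivial W X m x → HomTrivial W X m y →
    aj X m (x + y) = aj X m x + aj X m y
  aj_smul : ∀ (X : 𝒱.Obj) (m : ℕ) (q : ℚ) (x : C.CH X), HomTrivial W X m x →
    aj X m (q • x) = q • aj X m x
  aj_corr : ∀ {X Y : 𝒱.Obj} (m n c : ℕ) (γ : C.CH (X.prod Y)) (x : C.CH X),
    InCH C (X.prod Y) c γ → m + c = n + X.dim → HomTrivial W X m x →
    aj Y n (corrAct C γ x) = corr m n γ (aj X m x)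
  corr_eq_zero : ∀ {X Y : 𝒱.Obj} (m n c j : ℕ) (γ : C.CH (X.prod Y)),
    InCH C (X.prod Y) c γ → m + c = n + X.dim → j + 1 = 2 * m → Kills W γ j →
    ∀ t, corr m n γ t = 0
  curve_inj : ∀ (E : 𝒱.Obj) (y : C.CH E), E.dim = 1 → HomTrivial W E 1 y → aj E 1 y = 0 → y = 0
  reducible : toAJData.Reducible W

/-- `x` is an **algebraically trivial** class in `CH^m(X)`: a finite sum of classes `γ_* y`, where
`E` is a curve, `γ` is in `CH^m(E × X)`, and `y` in `CH^1(E)` is homologically trivial. -/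
def AlgTrivial (W : WeilTheory.{u, v, w} C) (X : 𝒱.Obj) (m : ℕ) (x : C.CH X) : Prop :=
  ∃ (ι : Type) (_ : Fintype ι) (E : ι → 𝒱.Obj) (γ : ∀ i, C.CH ((E i).prod X))
    (y : ∀ i, C.CH (E i)), (∀ i, (E i).dim = 1) ∧ (∀ i, InCH C ((E i).prod X) m (γ i)) ∧
      (∀ i, HomTrivial W (E i) 1 (y i)) ∧ x = ∑ i, corrAct C (γ i) (y i)

/-- `x` is a finite sum of classes `γ_* y`, where `E` is a curve, `γ` in `CH^m(E × X)` and `y` in
`CH^1(E)` are both homologically trivial. -/
def DoublyTrivial (W : WeilTheory.{u, v, w} C) (X : 𝒱.Obj) (m : ℕ) (x : C.CH X) : Prop :=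
  ∃ (ι : Type) (_ : Fintype ι) (E : ι → 𝒱.Obj) (γ : ∀ i, C.CH ((E i).prod X))
    (y : ∀ i, C.CH (E i)), (∀ i, (E i).dim = 1) ∧ (∀ i, HomTrivial W ((E i).prod X) m (γ i)) ∧
      (∀ i, HomTrivial W (E i) 1 (y i)) ∧ x = ∑ i, corrAct C (γ i) (y i)

/-- The Abel–Jacobi map is injective on the algebraically trivial classes in `CH^m(X)`. -/
def InjOnAlg {W : WeilTheory.{u, v, w} C} (A : AJTheory W) (X : 𝒱.Obj) (m : ℕ) : Prop :=
  ∀ x, AlgTrivial W X m x → A.aj X m x = 0 → x = 0

/-- The Abel–Jacobi map is injective on the homologically trivial classes in `CH^m(X)`. -/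
def InjOnHom {W : WeilTheory.{u, v, w} C} (A : AJTheory W) (X : 𝒱.Obj) (m : ℕ) : Prop :=
  ∀ x, HomTrivial W X m x → A.aj X m x = 0 → x = 0


end Pool.Agent.T6.H15.AJ
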