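import Pool.Agent.T6.H15.BB.GenCurve
import Pool.Agent.T6.H15.AJ.Defs

/-!
# Abel–Jacobi maps and algebraically trivial cycles: basic lemmas and the kernel formula
-/

open CategoryTheory CategoryTheory.Limits AlgebraicGeometry
open Pool.Agent.H914 Pool.Agent.H914.VarClass Pool.Agent.H914.VarClass.Obj Pool.Agent.R903
open Pool.Agent.R903.WeilTheory Pool.Agent.T6.H15.BB

universe u v w

namespace Pool.Agent.T6.H15.BB

variable {k : Type u} [Field k] {𝒱 : VarClass k} {C : ChowTheory.{u, v} 𝒱}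
  {W : WeilTheory.{u, v, w} C} {X Y Z E : 𝒱.Obj}

lemma corrAct_eq (γ : C.CH (X.prod Y)) (x : C.CH X) : corrAct C γ x = C.act γ x := rfl

/-! ### homologically trivial classes -/

lemma homTrivial_zero (W : WeilTheory.{u, v, w} C) (X : 𝒱.Obj) (m : ℕ) :
    HomTrivial W X m (0 : C.CH X) :=
  homTrivial_mk (Submodule.zero_mem _) (map_zero _)

lemma HomTrivial.add' {m : ℕ} {x y : C.CH X} (hx : HomTrivial W X m x)
    (hy : HomTrivial W X m y) : HomTrivial W X m (x + y) :=
  homTrivial_mk (Submodule.add_mem _ hx.1 hy.1) (by rw [map_add, hx.cl, hy.cl, add_zero])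

lemma HomTrivial.smul' {m : ℕ} {x : C.CH X} (q : ℚ) (hx : HomTrivial W X m x) :
    HomTrivial W X m (q • x) :=
  homTrivial_mk (Submodule.smul_mem _ _ hx.1) (by rw [W.cl_smul, hx.cl, smul_zero])

lemma HomTrivial.neg' {m : ℕ} {x : C.CH X} (hx : HomTrivial W X m x) :
    HomTrivial W X m (-x) := by
  have := hx.smul' (-1)
  rwa [neg_one_smul] at this

lemma HomTrivial.sub' {m : ℕ} {x y : C.CH X} (hx : HomTrivial W X m x)
    (hy : HomTrivial W X m y) : HomTrivial W X m (x - y) := by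
  rw [sub_eq_add_neg]
  exact hx.add' hy.neg'

lemma homTrivial_sum {ι : Type*} (s : Finset ι) {m : ℕ} {f : ι → C.CH X}
    (h : ∀ i ∈ s, HomTrivial W X m (f i)) : HomTrivial W X m (∑ i ∈ s, f i) := by
  classical
  induction s using Finset.induction_on with
  | empty => rw [Finset.sum_empty]; exact homTrivial_zero W X m
  | insert a s ha ih =>
    rw [Finset.sum_insert ha]
    exact (h a (Finset.mem_insert_self a s)).add'
      (ih fun i hi => h i (Finset.mem_insert_of_mem hi))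

lemma HomTrivial.pull' {m : ℕ} {y : C.CH Y} (hy : HomTrivial W Y m y) (f : X ⟶ Y) :
    HomTrivial W X m (C.pull f y) :=
  homTrivial_mk (C.pull_mem f hy.1) (by rw [W.cl_pull, hy.cl, map_zero])

lemma HomTrivial.kills {c : ℕ} {γ : C.CH (X.prod Y)} (hγ : HomTrivial W (X.prod Y) c γ)
    (j : ℕ) : Kills W γ j := by
  intro a _
  rw [W.act_apply, hγ.cl, zero_mul, map_zero]

lemma HomTrivial.act_left {c m n : ℕ} {γ : C.CH (X.prod Y)} (hγ : HomTrivial W (X.prod Y) c γ)
    {x : C.CH X} (hx : x ∈ C.gr X m) (h : m + c = n + X.dim) : HomTrivial W Y n (C.act γ x) :=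
  homTrivial_mk (C.act_mem hγ.1 hx h) (by
    rw [C.act_apply, W.cl_push, W.cl_mul, hγ.cl, zero_mul, map_zero])

lemma HomTrivial.comp_right {c d r : ℕ} {α : C.CH (X.prod Y)} {β : C.CH (Y.prod Z)}
    (hα : α ∈ C.gr (X.prod Y) c) (hβ : HomTrivial W (Y.prod Z) d β) (h : c + d = r + Y.dim) :
    HomTrivial W (X.prod Z) r (C.comp α β) :=
  homTrivial_mk (C.comp_mem hα hβ.1 h) (by
    rw [ChowTheory.comp, W.cl_push, W.cl_mul, W.cl_pull, W.cl_pull, hβ.cl, map_zero, mul_zero,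
      map_zero])

end Pool.Agent.T6.H15.BB

namespace Pool.Agent.T6.H15.AJ

variable {k : Type u} [Field k] {𝒱 : VarClass k} {C : ChowTheory.{u, v} 𝒱}
  {W : WeilTheory.{u, v, w} C} {X Y Z E : 𝒱.Obj}

/-! ### external products as correspondences -/

/-- the correspondence `x ↦ x × z` -/
noncomputable def mulExt (C : ChowTheory.{u, v} 𝒱) (X : 𝒱.Obj) {Y : 𝒱.Obj} (z : C.CH Y) :
    C.CH (X.prod (X.prod Y)) := C.span (fst X Y) (𝟙 _) (C.pull (snd X Y) z)

lemma act_mulExt (x : C.CH X) (z : C.CH Y) : C.act (mulExt C X z) x = C.ext x z := by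
  rw [mulExt, C.act_span, C.push_id, mul_comm, ChowTheory.ext]

lemma mulExt_mem {m : ℕ} {z : C.CH Y} (hz : z ∈ C.gr Y m) :
    mulExt C X z ∈ C.gr (X.prod (X.prod Y)) (X.dim + m) :=
  C.span_mem _ _ (C.pull_mem _ hz) (by rw [dim_prod]; omega)

lemma mulExt_homTrivial {m : ℕ} {z : C.CH Y} (hz : HomTrivial W Y m z) :
    HomTrivial W (X.prod (X.prod Y)) (X.dim + m) (mulExt C X z) :=
  homTrivial_mk (mulExt_mem hz.1) (by
    rw [mulExt, ChowTheory.span, W.cl_push, W.cl_pull, hz.cl, map_zero, map_zero])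

/-! ### Abel–Jacobi maps -/

variable (A : AJTheory W)

lemma aj_zero (X : 𝒱.Obj) (m : ℕ) : A.aj X m 0 = 0 := by
  have := A.aj_smul X m 0 0 (homTrivial_zero W X m)
  rwa [zero_smul, zero_smul] at this

lemma aj_sub {m : ℕ} {x y : C.CH X} (hx : HomTrivial W X m x) (hy : HomTrivial W X m y) :
    A.aj X m (x - y) = A.aj X m x - A.aj X m y := by
  have h1 := A.aj_smul X m (-1) y hy
  rw [neg_one_smul, neg_one_smul] at h1
  rw [sub_eq_add_neg, A.aj_add X m _ _ hx hy.neg', h1, sub_eq_add_neg]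

lemma aj_sum {ι : Type*} (s : Finset ι) {m : ℕ} {f : ι → C.CH X}
    (h : ∀ i ∈ s, HomTrivial W X m (f i)) :
    A.aj X m (∑ i ∈ s, f i) = ∑ i ∈ s, A.aj X m (f i) := by
  classical
  induction s using Finset.induction_on with
  | empty => rw [Finset.sum_empty, Finset.sum_empty]; exact aj_zero A X m
  | insert a s ha ih =>
    have h2 : ∀ i ∈ s, HomTrivial W X m (f i) := fun i hi => h i (Finset.mem_insert_of_mem hi)
    rw [Finset.sum_insert ha, Finset.sum_insert ha,
      A.aj_add X m _ _ (h a (Finset.mem_insert_self a s)) (homTrivial_sum s h2), ih h2]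

lemma aj_act {m n c : ℕ} {γ : C.CH (X.prod Y)} {x : C.CH X} (hγ : γ ∈ C.gr (X.prod Y) c)
    (h : m + c = n + X.dim) (hx : HomTrivial W X m x) :
    A.aj Y n (C.act γ x) = A.corr m n γ (A.aj X m x) :=
  A.aj_corr m n c γ x hγ h hx

lemma aj_act_zero {m n c : ℕ} {γ : C.CH (X.prod Y)} {x : C.CH X} (hγ : γ ∈ C.gr (X.prod Y) c)
    (h : m + c = n + X.dim) (hx : HomTrivial W X m x) (h0 : A.aj X m x = 0) :
    A.aj Y n (C.act γ x) = 0 := by
  rw [aj_act A hγ h hx, h0, map_zero]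

lemma eq_of_aj_eq (hE : E.dim = 1) {x y : C.CH E} (hx : HomTrivial W E 1 x)
    (hy : HomTrivial W E 1 y) (h : A.aj E 1 x = A.aj E 1 y) : x = y := by
  rw [← sub_eq_zero]
  exact A.curve_inj E _ hE (hx.sub' hy) (by rw [aj_sub A hx hy, h, sub_self])

/-! ### algebraically trivial classes -/

lemma algTrivial_single (hE : E.dim = 1) {m : ℕ} {γ : C.CH (E.prod X)}
    (hγ : γ ∈ C.gr (E.prod X) m) {y : C.CH E} (hy : HomTrivial W E 1 y) :
    AlgTrivial W X m (C.act γ y) :=
  ⟨Unit, inferInstance, fun _ => E, fun _ => γ, fun _ => y, fun _ => hE, fun _ => hγ,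
    fun _ => hy, by rw [Finset.univ_unique, Finset.sum_singleton]; rfl⟩

lemma doublyTrivial_single (hE : E.dim = 1) {m : ℕ} {γ : C.CH (E.prod X)}
    (hγ : HomTrivial W (E.prod X) m γ) {y : C.CH E} (hy : HomTrivial W E 1 y) :
    DoublyTrivial W X m (C.act γ y) :=
  ⟨Unit, inferInstance, fun _ => E, fun _ => γ, fun _ => y, fun _ => hE, fun _ => hγ,
    fun _ => hy, by rw [Finset.univ_unique, Finset.sum_singleton]; rfl⟩

lemma DoublyTrivial.algTrivial {m : ℕ} {x : C.CH X} (h : DoublyTrivial W X m x) :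
    AlgTrivial W X m x := by
  obtain ⟨ι, _, E, γ, y, hE, hγ, hy, rfl⟩ := h
  exact ⟨ι, inferInstance, E, γ, y, hE, fun i => (hγ i).1, hy, rfl⟩

lemma AlgTrivial.homTrivial {m : ℕ} {x : C.CH X} (h : AlgTrivial W X m x) :
    HomTrivial W X m x := by
  obtain ⟨ι, _, E, γ, y, hE, hγ, hy, rfl⟩ := h
  exact homTrivial_sum _ fun i _ => (hy i).act (hγ i) (by rw [hE i, add_comm])

lemma algTrivial_self (hE : E.dim = 1) {y : C.CH E} (hy : HomTrivial W E 1 y) :
    AlgTrivial W E 1 y := by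
  have h := algTrivial_single (X := E) hE (m := 1) (γ := C.diagC E)
    (by have := C.diagC_mem E; rwa [hE] at this) hy
  rwa [C.act_diagC] at h

lemma AlgTrivial.zero (W : WeilTheory.{u, v, w} C) (X : 𝒱.Obj) (m : ℕ) :
    AlgTrivial W X m (0 : C.CH X) :=
  ⟨Empty, inferInstance, fun i => i.elim, fun i => i.elim, fun i => i.elim, fun i => i.elim,
    fun i => i.elim, fun i => i.elim, by simp⟩

lemma AlgTrivial.act {m n c : ℕ} {x : C.CH X} (hx : AlgTrivial W X m x) {γ : C.CH (X.prod Y)}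
    (hγ : γ ∈ C.gr (X.prod Y) c) (h : m + c = n + X.dim) : AlgTrivial W Y n (C.act γ x) := by
  obtain ⟨ι, _, E, α, y, hE, hα, hy, rfl⟩ := hx
  refine ⟨ι, inferInstance, E, fun i => C.comp (α i) γ, y, hE,
    fun i => C.comp_mem (hα i) hγ h, hy, ?_⟩
  rw [map_sum]
  exact Finset.sum_congr rfl fun i _ => (C.act_comp _ _ _).symm

lemma AlgTrivial.add {m : ℕ} {x x' : C.CH X} (hx : AlgTrivial W X m x)
    (hx' : AlgTrivial W X m x') : AlgTrivial W X m (x + x') := by
  obtain ⟨ι, _, E, γ, y, hE, hγ, hy, rfl⟩ := hx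
  obtain ⟨ι', _, E', γ', y', hE', hγ', hy', rfl⟩ := hx'
  refine ⟨ι ⊕ ι', inferInstance, Sum.elim E E',
    fun i => match i with | .inl i => γ i | .inr i => γ' i,
    fun i => match i with | .inl i => y i | .inr i => y' i, ?_, ?_, ?_, ?_⟩
  · rintro (i | i)
    · exact hE i
    · exact hE' i
  · rintro (i | i)
    · exact hγ i
    · exact hγ' i
  · rintro (i | i)
    · exact hy i
    · exact hy' i
  · rw [Fintype.sum_sum_type]
    rfl

lemma AlgTrivial.sum {ι : Type*} (s : Finset ι) {m : ℕ} {f : ι → C.CH X}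
    (h : ∀ i ∈ s, AlgTrivial W X m (f i)) : AlgTrivial W X m (∑ i ∈ s, f i) := by
  classical
  induction s using Finset.induction_on with
  | empty => rw [Finset.sum_empty]; exact AlgTrivial.zero W X m
  | insert a s ha ih =>
    rw [Finset.sum_insert ha]
    exact (h a (Finset.mem_insert_self a s)).add
      (ih fun i hi => h i (Finset.mem_insert_of_mem hi))

lemma AlgTrivial.pull {m : ℕ} {y : C.CH Y} (hy : AlgTrivial W Y m y) (f : X ⟶ Y) :
    AlgTrivial W X m (C.pull f y) := by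
  rw [← C.act_cograph]
  exact hy.act (C.cograph_mem f) rfl

lemma AlgTrivial.push {m n : ℕ} {x : C.CH X} (hx : AlgTrivial W X m x) (f : X ⟶ Y)
    (h : m + Y.dim = n + X.dim) : AlgTrivial W Y n (C.push f x) := by
  rw [← C.act_graph]
  exact hx.act (C.graph_mem f) h

lemma AlgTrivial.ext {m n : ℕ} {x : C.CH X} (hx : AlgTrivial W X m x) {z : C.CH Y}
    (hz : z ∈ C.gr Y n) : AlgTrivial W (X.prod Y) (m + n) (C.ext x z) := by
  rw [← act_mulExt]
  exact hx.act (mulExt_mem hz) (by omega)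

lemma aj_ext_zero {m n : ℕ} {x : C.CH X} (hx : HomTrivial W X m x) (h0 : A.aj X m x = 0)
    {z : C.CH Y} (hz : z ∈ C.gr Y n) : A.aj (X.prod Y) (m + n) (C.ext x z) = 0 := by
  rw [← act_mulExt]
  exact aj_act_zero A (mulExt_mem hz) (by omega) hx h0

/-! ### the kernel of the Abel–Jacobi map on algebraically trivial classes -/

/-- a class of degree one on a curve -/
lemma exists_deg_one (hC : C.Polarized) (hE : E.dim = 1) : ∃ e ∈ C.gr E 1, C.deg E e = 1 := by
  obtain ⟨D, hD, hd⟩ := hC E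
  rw [hE, pow_one] at hd
  refine ⟨(C.deg E D)⁻¹ • D, Submodule.smul_mem _ _ hD, ?_⟩
  rw [map_smul, smul_eq_mul, inv_mul_cancel₀ hd]

lemma curveProj_mem (hE : E.dim = 1) {e : C.CH E} (he : e ∈ C.gr E 1) :
    curveProj C e ∈ C.gr (E.prod E) 1 := by
  have h0 : C.diagC E ∈ C.gr (E.prod E) 1 := by have := C.diagC_mem E; rwa [hE] at this
  have h1 : C.ext e (1 : C.CH E) ∈ C.gr (E.prod E) 1 := C.ext_mem he (C.one_mem E)
  have h2 : C.ext (1 : C.CH E) e ∈ C.gr (E.prod E) 1 := C.ext_mem (C.one_mem E) he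
  exact Submodule.sub_mem _ (Submodule.sub_mem _ h0 h1) h2

lemma act_curveProj (e : C.CH E) {y : C.CH E} (hy : HomTrivial W E 1 y) : C.act (curveProj C e) y = y := by
  rw [curveProj, C.act_sub, C.act_sub, LinearMap.sub_apply, LinearMap.sub_apply, C.act_diagC,
    C.act_ext, C.act_ext, hy.deg W, hy.deg W, zero_smul, zero_smul, sub_zero, sub_zero]

/-- a correspondence from a curve which kills `H^1` can be replaced by a homologically trivial
one -/
lemma homTrivial_curveProj_comp (hE : E.dim = 1) {e : C.CH E} (he : e ∈ C.gr E 1)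
    (hd : C.deg E e = 1) {m : ℕ} {γ : C.CH (E.prod X)} (hγ : γ ∈ C.gr (E.prod X) m)
    (h : Kills W γ 1) : HomTrivial W (E.prod X) m (C.comp (curveProj C e) γ) := by
  refine homTrivial_mk (C.comp_mem (curveProj_mem hE he) hγ (by rw [hE, add_comm])) ?_
  refine cl_eq_zero W fun l a ha => ?_
  rw [W.act_comp _ hγ]
  have h1 : W.act (curveProj C e) a = if l = 1 then a else 0 :=
    (isCK_curveCK (W := W) hE he hd).proj 1 l a ha
  rw [h1]
  split_ifs with hl
  · subst hl
    exact h a ha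
  · rw [map_zero]

theorem DoublyTrivial.aj {m : ℕ} {x : C.CH X} (h : DoublyTrivial W X m x) :
    A.aj X m x = 0 := by
  obtain ⟨ι, _, E, γ, y, hE, hγ, hy, rfl⟩ := h
  rw [aj_sum (f := fun i => corrAct C (γ i) (y i)) A _
    fun i _ => (hy i).act (hγ i).1 (by rw [hE i, add_comm])]
  refine Finset.sum_eq_zero fun i _ => ?_
  rw [corrAct_eq, aj_act A (hγ i).1 (by rw [hE i, add_comm]) (hy i)]
  exact A.corr_eq_zero 1 m m 1 (γ i) (hγ i).1 (by rw [hE i, add_comm]) rfl ((hγ i).kills 1) _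

theorem AlgTrivial.doublyTrivial (hC : C.Polarized) {m : ℕ} {x : C.CH X}
    (hx : AlgTrivial W X m x) (h0 : A.aj X m x = 0) : DoublyTrivial W X m x := by
  obtain ⟨ι, hι, E, γ, y, hE, hγ, hy, rfl⟩ := hx
  have hd : ∀ i, 1 + m = m + (E i).dim := fun i => by rw [hE i, add_comm]
  rw [aj_sum (f := fun i => corrAct C (γ i) (y i)) A _
    fun i _ => (hy i).act (hγ i) (hd i)] at h0
  have h1 : ∑ i, A.corr 1 m (γ i) (A.aj (E i) 1 (y i)) = 0 := by
    rw [← h0]
    exact Finset.sum_congr rfl fun i _ => (aj_act A (hγ i) (hd i) (hy i)).symm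
  obtain ⟨p, hp, hk, ht⟩ := A.reducible ι hι E hE X m γ hγ
  have h2 := ht (fun i => A.aj (E i) 1 (y i)) h1
  have h3 : ∀ j, ∑ i, C.act (p i j) (y i) = y j := by
    intro j
    have h4 : ∀ i ∈ Finset.univ, HomTrivial W (E j) 1 (C.act (p i j) (y i)) :=
      fun i _ => (hy i).act (hp i j) (by rw [hE i])
    refine eq_of_aj_eq A (hE j) (homTrivial_sum _ h4) (hy j) ?_
    rw [aj_sum A _ h4, ← h2 j]
    exact Finset.sum_congr rfl fun i _ => aj_act A (hp i j) (by rw [hE i]) (hy i)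
  choose e he hdeg using fun i => exists_deg_one (E := E i) hC (hE i)
  have hsm : ∀ i, sumComp (p i) γ ∈ C.gr ((E i).prod X) m := fun i =>
    Submodule.sum_mem _ fun j _ => C.comp_mem (hp i j) (hγ j) (hd j)
  refine ⟨ι, hι, E, fun i => C.comp (curveProj C (e i)) (sumComp (p i) γ), y, hE,
    fun i => homTrivial_curveProj_comp (hE i) (he i) (hdeg i) (hsm i) (hk i), hy, ?_⟩
  have h5 : ∀ i, corrAct C (C.comp (curveProj C (e i)) (sumComp (p i) γ)) (y i) =
      ∑ j, C.act (γ j) (C.act (p i j) (y i)) := by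
    intro i
    rw [corrAct_eq, C.act_comp, act_curveProj (e i) (hy i), sumComp,
      act_sum_apply]
    exact Finset.sum_congr rfl fun j _ => C.act_comp _ _ _
  rw [Finset.sum_congr rfl fun i _ => h5 i, Finset.sum_comm]
  refine Finset.sum_congr rfl fun j _ => ?_
  rw [← map_sum, h3 j]
  rfl

theorem kernel_iff (hC : C.Polarized) (X : 𝒱.Obj) (m : ℕ) (x : C.CH X) :
    (AlgTrivial W X m x ∧ A.aj X m x = 0) ↔ DoublyTrivial W X m x :=
  ⟨fun h => h.1.doublyTrivial A hC h.2, fun h => ⟨h.algTrivial, h.aj A⟩⟩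

theorem injOnAlg_iff (hC : C.Polarized) (X : 𝒱.Obj) (m : ℕ) :
    InjOnAlg A X m ↔ ∀ E : 𝒱.Obj, E.dim = 1 → ∀ (γ : C.CH (E.prod X)) (y : C.CH E),
      HomTrivial W (E.prod X) m γ → HomTrivial W E 1 y → corrAct C γ y = 0 := by
  constructor
  · intro h E hE γ y hγ hy
    have h1 := doublyTrivial_single hE hγ hy
    exact h _ h1.algTrivial (h1.aj A)
  · intro h x hx h0
    obtain ⟨ι, _, E, γ, y, hE, hγ, hy, rfl⟩ := hx.doublyTrivial A hC h0
    exact Finset.sum_eq_zero fun i _ => h (E i) (hE i) (γ i) (y i) (hγ i) (hy i)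

end Pool.Agent.T6.H15.AJ
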