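import Pool.Agent.T6.H15.AJ.Core

/-!
# Injectivity of the Abel–Jacobi maps on algebraically trivial cycles, and products
-/

open CategoryTheory CategoryTheory.Limits AlgebraicGeometry
open Pool.Agent.H914 Pool.Agent.H914.VarClass Pool.Agent.H914.VarClass.Obj Pool.Agent.R903
open Pool.Agent.R903.WeilTheory Pool.Agent.T6.H15.BB

universe u v w

namespace Pool.Agent.T6.H15.AJ

variable {k : Type u} [Field k] {𝒱 : VarClass k} {C : ChowTheory.{u, v} 𝒱}
  {W : WeilTheory.{u, v, w} C} {X Y Z E : 𝒱.Obj}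

/-- products of homologically trivial classes with classes of degree zero on curves -/
def CurveExt (W : WeilTheory.{u, v, w} C) : Prop :=
  ∀ (E X : 𝒱.Obj) (m : ℕ) (y : C.CH E) (z : C.CH X), E.dim = 1 → HomTrivial W E 1 y →
    HomTrivial W X m z → extProd C y z = 0

/-- homologically trivial correspondences from curves kill the classes of degree zero -/
def CurveCorr (W : WeilTheory.{u, v, w} C) : Prop :=
  ∀ (E X : 𝒱.Obj) (m : ℕ) (γ : C.CH (E.prod X)) (y : C.CH E), E.dim = 1 →
    HomTrivial W (E.prod X) m γ → HomTrivial W E 1 y → corrAct C γ y = 0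

theorem CurveExt.corr (h : CurveExt W) : CurveCorr W := by
  intro E X m γ y hE hγ hy
  have h1 : extProd C y γ = 0 := h E (E.prod X) m y γ hE hy hγ
  have h2 : C.pull (lift (fst E X) (𝟙 (E.prod X))) (C.ext y γ) = C.pull (fst E X) y * γ := by
    rw [ChowTheory.ext, C.pull_mul, ← C.pull_comp, ← C.pull_comp, lift_fst, lift_snd, C.pull_id]
  have h3 : C.ext y γ = 0 := h1
  rw [h3, map_zero] at h2
  rw [corrAct_eq, C.act_apply, mul_comm, ← h2, map_zero]

theorem CurveCorr.ext (h : CurveCorr W) : CurveExt W := by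
  intro E X m y z hE hy hz
  rw [extProd_eq, ← act_mulExt]
  exact h E _ _ _ y hE (mulExt_homTrivial hz) hy

/-- homologically trivial correspondences kill the algebraically trivial classes -/
theorem CurveCorr.alg (h : CurveCorr W) {n c : ℕ} {x : C.CH Y} {γ : C.CH (Y.prod X)}
    (hx : AlgTrivial W Y n x) (hγ : HomTrivial W (Y.prod X) c γ) : corrAct C γ x = 0 := by
  by_cases hc : Y.dim ≤ n + c
  · obtain ⟨ι, _, E, α, y, hE, hα, hy, rfl⟩ := hx
    rw [corrAct_eq, map_sum]
    refine Finset.sum_eq_zero fun i _ => ?_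
    rw [corrAct_eq, ← C.act_comp]
    exact h (E i) X (n + c - Y.dim) _ (y i) (hE i)
      (HomTrivial.comp_right (hα i) hγ (by omega)) (hy i)
  · exact C.act_eq_zero hγ.1 hx.homTrivial.1 (by omega)

variable (A : AJTheory W)

theorem curveCorr_iff (hC : C.Polarized) : (∀ X m, InjOnAlg A X m) ↔ CurveCorr W := by
  constructor
  · intro h E X m γ y hE hγ hy
    exact (injOnAlg_iff A hC X m).1 (h X m) E hE γ y hγ hy
  · intro h X m
    exact (injOnAlg_iff A hC X m).2 fun E hE γ y hγ hy => h E X m γ y hE hγ hy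

/-- twisting with a curve -/
lemma ext_one_inj {e : C.CH E} (hd : C.deg E e = 1) {x : C.CH X}
    (h : C.ext x (1 : C.CH E) = 0) : x = 0 :=
  ext_inj (y := (1 : C.CH E)) e (by rw [one_mul, hd]; exact one_ne_zero) h

lemma ext_self_inj {e : C.CH E} (hd : C.deg E e = 1) {x : C.CH X}
    (h : C.ext x e = 0) : x = 0 :=
  ext_inj (y := e) 1 (by rw [mul_one, hd]; exact one_ne_zero) h

theorem middle_all (hC : C.Polarized) (h : ∀ X m, X.dim + 1 = 2 * m → InjOnAlg A X m) :
    ∀ X m, InjOnAlg A X m := by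
  have key : ∀ N : ℕ, ∀ X m, max (X.dim + 1 - 2 * m) (2 * m - (X.dim + 1)) = N →
      InjOnAlg A X m := by
    intro N
    induction N with
    | zero => intro X m hN; exact h X m (by omega)
    | succ N ih =>
      intro X m hN x hx h0
      by_cases hE : ∃ E : 𝒱.Obj, E.dim = 1
      · obtain ⟨E, hE⟩ := hE
        obtain ⟨e, he, hd⟩ := exists_deg_one hC hE
        rcases Nat.lt_or_ge (X.dim + 1) (2 * m) with h1 | h1
        · refine ext_one_inj hd (ih (X.prod E) m (by rw [dim_prod, hE]; omega) _ ?_ ?_)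
          · exact hx.ext (C.one_mem E)
          · exact aj_ext_zero A hx.homTrivial h0 (C.one_mem E)
        · refine ext_self_inj hd (ih (X.prod E) (m + 1) (by rw [dim_prod, hE]; omega) _ ?_ ?_)
          · exact hx.ext he
          · exact aj_ext_zero A hx.homTrivial h0 he
      · obtain ⟨ι, _, E, γ, y, hE', _, _, rfl⟩ := hx
        exact Finset.sum_eq_zero fun i _ => (hE ⟨E i, hE' i⟩).elim
  exact fun X m => key _ X m rfl

theorem divisor_middle_all (hC : C.Polarized)
    (h : ∀ (X : 𝒱.Obj) (m : ℕ) (D z : C.CH X), X.dim = 2 * m + 1 → AlgTrivial W X 1 D →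
      HomTrivial W X m z → D * z = 0) (X : 𝒱.Obj) (m : ℕ) (D z : C.CH X)
    (hD : AlgTrivial W X 1 D) (hz : HomTrivial W X m z) : D * z = 0 := by
  have key : ∀ N : ℕ, ∀ (X : 𝒱.Obj) (m : ℕ) (D z : C.CH X),
      max (X.dim - (2 * m + 1)) (2 * m + 1 - X.dim) = N → AlgTrivial W X 1 D →
      HomTrivial W X m z → D * z = 0 := by
    intro N
    induction N with
    | zero => intro X m D z hN hD hz; exact h X m D z (by omega) hD hz
    | succ N ih =>
      intro X m D z hN hD hz
      by_cases hE : ∃ E : 𝒱.Obj, E.dim = 1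
      · obtain ⟨E, hE⟩ := hE
        obtain ⟨e, he, hd⟩ := exists_deg_one hC hE
        have h2 : ∀ u : C.CH E, C.ext (D * z) u = C.ext D 1 * C.ext z u := by
          intro u
          rw [ChowTheory.ext, ChowTheory.ext, ChowTheory.ext, C.pull_mul, map_one]
          ring
        rcases Nat.lt_or_ge X.dim (2 * m + 1) with h1 | h1
        · refine ext_one_inj hd ?_
          rw [h2]
          exact ih (X.prod E) m _ _ (by rw [dim_prod, hE]; omega) (hD.ext (C.one_mem E))
            (hz.ext (C.one_mem E))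
        · refine ext_self_inj hd ?_
          rw [h2]
          exact ih (X.prod E) (m + 1) _ _ (by rw [dim_prod, hE]; omega) (hD.ext (C.one_mem E))
            (hz.ext he)
      · obtain ⟨ι, _, E, γ, y, hE', _, _, rfl⟩ := hD
        have : ∑ i, corrAct C (γ i) (y i) = 0 :=
          Finset.sum_eq_zero fun i _ => (hE ⟨E i, hE' i⟩).elim
        rw [this, zero_mul]
  exact key _ X m D z rfl hD hz

theorem main_tfae (hC : C.Polarized) :
    [ ∀ (X : 𝒱.Obj) (m : ℕ), InjOnAlg A X m,
      ∀ (X : 𝒱.Obj) (m : ℕ), X.dim + 1 = 2 * m → InjOnAlg A X m,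
      ∀ (E X : 𝒱.Obj) (m : ℕ) (y : C.CH E) (z : C.CH X), E.dim = 1 → HomTrivial W E 1 y →
        HomTrivial W X m z → extProd C y z = 0,
      ∀ (Y X : 𝒱.Obj) (n m : ℕ) (x : C.CH Y) (z : C.CH X), AlgTrivial W Y n x →
        HomTrivial W X m z → extProd C x z = 0,
      ∀ (X : 𝒱.Obj) (n m : ℕ) (x z : C.CH X), AlgTrivial W X n x → HomTrivial W X m z →
        x * z = 0,
      ∀ (X : 𝒱.Obj) (m : ℕ) (D z : C.CH X), X.dim = 2 * m + 1 → AlgTrivial W X 1 D →
        HomTrivial W X m z → D * z = 0,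
      ∀ (Y X : 𝒱.Obj) (n c : ℕ) (x : C.CH Y) (γ : C.CH (Y.prod X)), AlgTrivial W Y n x →
        HomTrivial W (Y.prod X) c γ → corrAct C γ x = 0,
      ∀ (Y X : 𝒱.Obj) (n c j : ℕ) (x : C.CH Y) (γ : C.CH (Y.prod X)), AlgTrivial W Y n x →
        InCH C (Y.prod X) c γ → j + 1 = 2 * n → Kills W γ j → corrAct C γ x = 0 ].TFAE := by
  tfae_have 1 → 2 := fun h X m _ => h X m
  tfae_have 2 → 1 := middle_all A hC
  tfae_have 1 → 3 := fun h => ((curveCorr_iff A hC).1 h).ext
  tfae_have 3 → 7 := fun h Y X n c x γ hx hγ => (CurveExt.corr h).alg hx hγ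
  tfae_have 7 → 4 := by
    intro h Y X n m x z hx hz
    rw [extProd_eq, ← act_mulExt]
    exact h Y _ n _ x _ hx (mulExt_homTrivial hz)
  tfae_have 4 → 5 := by
    intro h X n m x z hx hz
    have h1 : C.ext x z = 0 := h X X n m x z hx hz
    rw [← C.pull_diag_ext, h1, map_zero]
  tfae_have 5 → 6 := fun h X m D z _ hD hz => h X 1 m D z hD hz
  tfae_have 6 → 3 := by
    intro h E X m y z hE hy hz
    have h1 := divisor_middle_all hC h (E.prod X) m (C.pull (fst E X) y) (C.pull (snd E X) z)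
      ((algTrivial_self hE hy).pull _) (HomTrivial.pull' hz _)
    exact h1
  tfae_have 1 → 8 := by
    intro h Y X n c j x γ hx hγ hj hk
    by_cases hc : Y.dim ≤ n + c
    · have h2 : n + c = (n + c - Y.dim) + Y.dim := by omega
      refine h X (n + c - Y.dim) _ (hx.act hγ h2) ?_
      rw [corrAct_eq, aj_act A hγ h2 hx.homTrivial]
      exact A.corr_eq_zero n _ c j γ hγ h2 hj hk _
    · exact C.act_eq_zero hγ hx.homTrivial.1 (by omega)
  tfae_have 8 → 3 := by
    intro h E X m y z hE hy hz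
    rw [extProd_eq, ← act_mulExt]
    exact h E _ 1 _ 1 y _ (algTrivial_self hE hy) (mulExt_mem hz.1) rfl
      ((mulExt_homTrivial hz).kills 1)
  tfae_have 3 → 1 := fun h => (curveCorr_iff A hC).2 (CurveExt.corr h)
  tfae_finish

end Pool.Agent.T6.H15.AJ
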