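import Pool.Agent.T6.H15.AJ.Defs

/-!
# Zero-cycles on varieties dominated by products of curves: definitions
-/

open CategoryTheory CategoryTheory.Limits AlgebraicGeometry
open Pool.Agent.H914 Pool.Agent.H914.VarClass Pool.Agent.H914.VarClass.Obj Pool.Agent.R903
open Pool.Agent.T6.H15.BB

universe u v w

namespace Pool.Agent.T6.H15.AJ

variable {k : Type u} [Field k] {𝒱 : VarClass k}

/-- The zero-cycles on a product `X × Y` are sums of external products of zero-cycles, up to
rational equivalence. This is true over algebraically closed fields, since the closed points of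
`X × Y` are the pairs of closed points. -/
def PointsArePairs (C : ChowTheory.{u, v} 𝒱) : Prop :=
  ∀ (X Y : 𝒱.Obj) (x : C.CH (X.prod Y)), InCH C (X.prod Y) (X.dim + Y.dim) x →
    ∃ (ι : Type) (_ : Fintype ι) (a : ι → C.CH X) (b : ι → C.CH Y),
      (∀ i, InCH C X X.dim (a i)) ∧ (∀ i, InCH C Y Y.dim (b i)) ∧
        x = ∑ i, extProd C (a i) (b i)

/-- `X` is dominated by a product of curves: there are a product of curves `P`, a morphism
`f : P → X` and a class `u` in `CH^r(P)`, where `r = dim P - dim X`, such that `f_* u` is a nonzero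
multiple of the class of `X`. (If `P` is projective then this holds for each surjective morphism
`f`.) -/
def DomByCurves (C : ChowTheory.{u, v} 𝒱) (X : 𝒱.Obj) : Prop :=
  ∃ (P : 𝒱.Obj) (f : P ⟶ X) (r : ℕ) (u : C.CH P) (q : ℚ), IsCurveProd P ∧
    r + X.dim = P.dim ∧ InCH C P r u ∧ q ≠ 0 ∧ applyLin (C.push f) u = q • 1

end Pool.Agent.T6.H15.AJ
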