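import Pool.Agent.T6.H15.AJ.Core
import Pool.Agent.T6.H15.AJ.ZeroDefs

/-!
# Zero-cycles on products of curves, and products of algebraically trivial cycles
-/

open CategoryTheory CategoryTheory.Limits AlgebraicGeometry
open Pool.Agent.H914 Pool.Agent.H914.VarClass Pool.Agent.H914.VarClass.Obj Pool.Agent.R903
open Pool.Agent.R903.WeilTheory Pool.Agent.T6.H15.BB

universe u v w

namespace Pool.Agent.T6.H15.AJ

variable {k : Type u} [Field k] {𝒱 : VarClass k} {C : ChowTheory.{u, v} 𝒱}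
  {W : WeilTheory.{u, v, w} C} {X X' Y Y' Z E : 𝒱.Obj}

/-- the correspondence `w × id` -/
noncomputable def opMg (w : C.CH (X.prod X')) (Y : 𝒱.Obj) :
    C.CH ((X.prod Y).prod (X'.prod Y)) :=
  C.span (p13 X X' Y) (snd X (X'.prod Y)) (C.pull (p12 X X' Y) w)

/-- the correspondence `id × w` -/
noncomputable def opLg (X : 𝒱.Obj) (w : C.CH (Y.prod Y')) :
    C.CH ((X.prod Y).prod (X.prod Y')) :=
  C.span (p12 X Y Y') (p13 X Y Y') (C.pull (snd X (Y.prod Y')) w)

lemma act_opMg_ext (w : C.CH (X.prod X')) (x : C.CH X) (y : C.CH Y) :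
    C.act (opMg w Y) (C.ext x y) = C.ext (C.act w x) y := by
  rw [opMg, C.act_span, ChowTheory.ext, ChowTheory.ext, C.act_apply, C.bc1, ← C.push_mul,
    C.pull_mul, C.pull_mul, ← C.pull_comp, ← C.pull_comp, ← C.pull_comp, ← C.pull_comp, p12_fst,
    p13_fst, p13_snd, mul_assoc]

lemma act_opLg_ext (w : C.CH (Y.prod Y')) (x : C.CH X) (y : C.CH Y) :
    C.act (opLg X w) (C.ext x y) = C.ext x (C.act w y) := by
  rw [opLg, C.act_span, ChowTheory.ext, ChowTheory.ext, C.act_apply, C.bc2, ← C.mul_push,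
    C.pull_mul, C.pull_mul, ← C.pull_comp, ← C.pull_comp, ← C.pull_comp, ← C.pull_comp, p12_fst,
    p12_snd, p13_fst]
  congr 1
  ring

/-- multiplication by `z` -/
lemma act_mulC (z x : C.CH X) : C.act (C.span (𝟙 X) (𝟙 X) z) x = z * x := by
  rw [C.act_span, C.push_id, C.pull_id]

lemma AlgTrivial.mul_left {m n : ℕ} {x z : C.CH X} (hz : z ∈ C.gr X n)
    (hx : AlgTrivial W X m x) : AlgTrivial W X (n + m) (z * x) := by
  rw [← act_mulC]
  exact hx.act (c := n + X.dim) (C.span_mem _ _ hz (by omega)) (by omega)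

lemma AlgTrivial.ext_left {m n : ℕ} {x : C.CH X} {z : C.CH Y} (hz : z ∈ C.gr Y n)
    (hx : AlgTrivial W X m x) : AlgTrivial W (Y.prod X) (n + m) (C.ext z x) := by
  rw [ChowTheory.ext]
  exact AlgTrivial.mul_left (C.pull_mem _ hz) (hx.pull _)

lemma AlgTrivial.smul {m : ℕ} {x : C.CH X} (q : ℚ) (hx : AlgTrivial W X m x) :
    AlgTrivial W X m (q • x) := by
  have h1 := AlgTrivial.mul_left (Submodule.smul_mem _ q (C.one_mem X)) hx
  rwa [zero_add, smul_mul_assoc, one_mul] at h1

/-! ### zero-cycles -/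

/-- zero-cycles of degree zero are homologically trivial -/
lemma homTrivial_of_deg {x : C.CH X} (hx : x ∈ C.gr X X.dim) (hd : C.deg X x = 0) :
    HomTrivial W X X.dim x :=
  homTrivial_mk hx (eq_zero_of_tr (W.cl_mem hx) (by rw [W.tr_cl, hd, Rat.cast_zero]))

lemma HomTrivial.deg_self (W : WeilTheory.{u, v, w} C) {m : ℕ} {x : C.CH X}
    (hx : HomTrivial W X m x) : C.deg X x = 0 := by
  have := hx.deg W 1
  rwa [mul_one] at this

/-- a zero-cycle of degree one -/
lemma exists_point (hC : C.Polarized) (X : 𝒱.Obj) : ∃ o ∈ C.gr X X.dim, C.deg X o = 1 := by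
  obtain ⟨D, hD, hd⟩ := hC X
  have h1 : ∀ n : ℕ, D ^ n ∈ C.gr X n := by
    intro n
    induction n with
    | zero => rw [pow_zero]; exact C.one_mem X
    | succ n ih => rw [pow_succ]; exact C.mul_mem ih hD
  refine ⟨(C.deg X (D ^ X.dim))⁻¹ • D ^ X.dim, Submodule.smul_mem _ _ (h1 _), ?_⟩
  rw [map_smul, smul_eq_mul, inv_mul_cancel₀ hd]

lemma push_snd_ext (x : C.CH X) (y : C.CH Y) :
    C.push (snd X Y) (C.ext x y) = C.deg X x • y := by
  rw [ChowTheory.ext, C.push_mul, C.push_snd_pull_fst, Algebra.smul_def]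

lemma ext_add_left (x x' : C.CH X) (y : C.CH Y) :
    C.ext (x + x') y = C.ext x y + C.ext x' y := by
  rw [ChowTheory.ext, map_add, add_mul, ChowTheory.ext, ChowTheory.ext]

lemma ext_add_right (x : C.CH X) (y y' : C.CH Y) :
    C.ext x (y + y') = C.ext x y + C.ext x y' := by
  rw [ChowTheory.ext, map_add, mul_add, ChowTheory.ext, ChowTheory.ext]

lemma ext_sum_left {ι : Type*} (s : Finset ι) (f : ι → C.CH X) (y : C.CH Y) :
    C.ext (∑ i ∈ s, f i) y = ∑ i ∈ s, C.ext (f i) y := by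
  rw [ChowTheory.ext, map_sum, Finset.sum_mul]
  rfl

lemma ext_sum_right {ι : Type*} (s : Finset ι) (x : C.CH X) (f : ι → C.CH Y) :
    C.ext x (∑ i ∈ s, f i) = ∑ i ∈ s, C.ext x (f i) := by
  rw [ChowTheory.ext, map_sum, Finset.mul_sum]
  rfl

/-- the decomposition of a zero-cycle of degree zero on a product -/
lemma decompose (hP : PointsArePairs C) {o : C.CH X} {o' : C.CH Y} (ho : o ∈ C.gr X X.dim)
    (ho' : o' ∈ C.gr Y Y.dim) (hd : C.deg X o = 1) (hd' : C.deg Y o' = 1)
    {x : C.CH (X.prod Y)} (hx : HomTrivial W (X.prod Y) (X.prod Y).dim x) :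
    ∃ (a : C.CH X) (b : C.CH Y) (ι : Type) (_ : Fintype ι) (p : ι → C.CH X)
      (q : ι → C.CH Y), HomTrivial W X X.dim a ∧ HomTrivial W Y Y.dim b ∧
      (∀ i, HomTrivial W X X.dim (p i)) ∧ (∀ i, HomTrivial W Y Y.dim (q i)) ∧
      x = C.ext o b + C.ext a o' + ∑ i, C.ext (p i) (q i) := by
  obtain ⟨ι, _, a, b, ha, hb, hsum⟩ := hP X Y x (by have := hx.1; rwa [dim_prod] at this)
  have hp : ∀ i, HomTrivial W X X.dim (a i - C.deg X (a i) • o) := fun i =>
    homTrivial_of_deg (Submodule.sub_mem _ (ha i) (Submodule.smul_mem _ _ ho))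
      (by rw [map_sub, map_smul, hd, smul_eq_mul, mul_one, sub_self])
  have hq : ∀ i, HomTrivial W Y Y.dim (b i - C.deg Y (b i) • o') := fun i =>
    homTrivial_of_deg (Submodule.sub_mem _ (hb i) (Submodule.smul_mem _ _ ho'))
      (by rw [map_sub, map_smul, hd', smul_eq_mul, mul_one, sub_self])
  have hdeg : ∑ i, C.deg X (a i) * C.deg Y (b i) = 0 := by
    have h1 : C.push (snd X Y) x = ∑ i, C.deg X (a i) • b i := by
      rw [hsum, map_sum]
      exact Finset.sum_congr rfl fun i _ => push_snd_ext _ _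
    have h2 : HomTrivial W Y Y.dim (C.push (snd X Y) x) := by
      rw [← C.act_graph]
      exact hx.act (C.graph_mem _) (by rw [add_comm])
    have h3 := HomTrivial.deg_self W h2
    rw [h1, map_sum] at h3
    rw [← h3]
    exact Finset.sum_congr rfl fun i _ => by rw [map_smul, smul_eq_mul]
  refine ⟨∑ i, C.deg Y (b i) • (a i - C.deg X (a i) • o),
    ∑ i, C.deg X (a i) • (b i - C.deg Y (b i) • o'), ι, inferInstance,
    fun i => a i - C.deg X (a i) • o, fun i => b i - C.deg Y (b i) • o',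
    homTrivial_sum _ fun i _ => (hp i).smul' _, homTrivial_sum _ fun i _ => (hq i).smul' _,
    hp, hq, ?_⟩
  rw [ext_sum_right, ext_sum_left, ← Finset.sum_add_distrib, ← Finset.sum_add_distrib, hsum]
  have h4 : ∀ i, extProd C (a i) (b i) = (C.ext o (C.deg X (a i) • (b i - C.deg Y (b i) • o')) +
      C.ext (C.deg Y (b i) • (a i - C.deg X (a i) • o)) o' +
      C.ext (a i - C.deg X (a i) • o) (b i - C.deg Y (b i) • o')) +
      (C.deg X (a i) * C.deg Y (b i)) • C.ext o o' := by
    intro i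
    rw [extProd_eq]
    simp only [ChowTheory.ext, map_sub, map_smul]
    simp only [Algebra.smul_def, map_mul]
    ring
  rw [Finset.sum_congr rfl fun i _ => h4 i, Finset.sum_add_distrib, ← Finset.sum_smul, hdeg,
    zero_smul, add_zero]

lemma algTrivial_zeroCycle (hC : C.Polarized) (hP : PointsArePairs C) {P : 𝒱.Obj}
    (h : IsCurveProd P) : ∀ x, HomTrivial W P P.dim x → AlgTrivial W P P.dim x := by
  induction h with
  | curve hE =>
    intro x hx
    rw [hE] at hx ⊢
    exact algTrivial_self hE hx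
  | @prod X Y _ _ ih ih' =>
    intro x hx
    obtain ⟨o, ho, hd⟩ := exists_point hC X
    obtain ⟨o', ho', hd'⟩ := exists_point hC Y
    obtain ⟨a, b, ι, _, p, q, ha, hb, hp, hq, rfl⟩ := decompose hP ho ho' hd hd' hx
    have e : (X.prod Y).dim = X.dim + Y.dim := dim_prod X Y
    rw [e]
    refine ((AlgTrivial.ext_left ho (ih' b hb)).add ((ih a ha).ext ho')).add ?_
    exact AlgTrivial.sum _ fun i _ => (ih _ (hp i)).ext (hq i).1

variable (A : AJTheory W)

/-- injectivity for zero-cycles on products of curves -/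
lemma injOnHom_curveProd (hC : C.Polarized) (hP : PointsArePairs C)
    (h0 : ∀ (X Y : 𝒱.Obj) (m n : ℕ) (x : C.CH X) (y : C.CH Y), AlgTrivial W X m x →
      AlgTrivial W Y n y → extProd C x y = 0) {P : 𝒱.Obj} (h : IsCurveProd P) :
    InjOnHom A P P.dim := by
  induction h with
  | @curve E hE =>
    intro x hx hx0
    rw [hE] at hx hx0
    exact A.curve_inj E x hE hx hx0
  | @prod X Y hX hY ih ih' =>
    intro x hx hx0
    obtain ⟨o, ho, hd⟩ := exists_point hC X
    obtain ⟨o', ho', hd'⟩ := exists_point hC Y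
    obtain ⟨a, b, ι, _, p, q, ha, hb, hp, hq, hxe⟩ := decompose hP ho ho' hd hd' hx
    have h1 : ∑ i, C.ext (p i) (q i) = 0 := Finset.sum_eq_zero fun i _ =>
      h0 X Y _ _ (p i) (q i) (algTrivial_zeroCycle hC hP hX _ (hp i))
        (algTrivial_zeroCycle hC hP hY _ (hq i))
    rw [h1, add_zero] at hxe
    have h2 : C.push (snd X Y) x = b := by
      rw [hxe, map_add, push_snd_ext, push_snd_ext, hd, one_smul, HomTrivial.deg_self W ha,
        zero_smul, add_zero]
    have h3 : C.push (fst X Y) x = a := by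
      rw [hxe, map_add, push_fst_ext, push_fst_ext, hd', one_smul, HomTrivial.deg_self W hb,
        zero_smul, zero_add]
    have h4 : b = 0 := by
      refine ih' b hb ?_
      rw [← h2, ← C.act_graph]
      exact aj_act_zero A (C.graph_mem _) (by rw [add_comm]) hx hx0
    have h5 : a = 0 := by
      refine ih a ha ?_
      rw [← h3, ← C.act_graph]
      exact aj_act_zero A (C.graph_mem _) (by rw [add_comm]) hx hx0
    rw [hxe, h4, h5, ext_zero_left, ext_zero_right, add_zero]

lemma InjOnHom.dominated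
    (h : ∀ P : 𝒱.Obj, IsCurveProd P → InjOnHom A P P.dim) (hX : DomByCurves C X) :
    InjOnHom A X X.dim := by
  intro x hx hx0
  obtain ⟨P, f, r, u, q, hP, hr, hu, hq, hfu⟩ := hX
  have h1 : C.act (C.span f (𝟙 P) u) x = u * C.pull f x := by rw [C.act_span, C.push_id]
  have hs : C.span f (𝟙 P) u ∈ C.gr (X.prod P) (r + X.dim) := C.span_mem _ _ hu (by omega)
  have hd : X.dim + (r + X.dim) = P.dim + X.dim := by omega
  have h2 : u * C.pull f x = 0 := by
    rw [← h1]
    exact h P hP _ (hx.act hs hd) (aj_act_zero A hs hd hx hx0)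
  have h3 : C.push f (u * C.pull f x) = q • x := by
    have h4 : C.push f u = q • 1 := hfu
    rw [C.push_mul, h4, smul_mul_assoc, one_mul]
  rw [h2, map_zero] at h3
  exact (smul_eq_zero.1 h3.symm).resolve_left hq

/-- the decomposition of any zero-cycle on a product of curves -/
lemma decompose_curves (hP : PointsArePairs C) {E E' : 𝒱.Obj} (hE : E.dim = 1)
    (hE' : E'.dim = 1) {e : C.CH E} {e' : C.CH E'} (he : e ∈ C.gr E 1) (he' : e' ∈ C.gr E' 1)
    (hd : C.deg E e = 1) (hd' : C.deg E' e' = 1)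
    (h : ∀ (y : C.CH E) (y' : C.CH E'), HomTrivial W E 1 y → HomTrivial W E' 1 y' →
      C.ext y y' = 0) {x : C.CH (E.prod E')} (hx : x ∈ C.gr (E.prod E') 2) :
    ∃ (a : C.CH E) (b : C.CH E'), a ∈ C.gr E 1 ∧ b ∈ C.gr E' 1 ∧
      x = C.ext e b + C.ext a e' := by
  obtain ⟨ι, _, a, b, ha, hb, hsum⟩ := hP E E' x (by rw [hE, hE']; exact hx)
  rw [hE] at ha
  rw [hE'] at hb
  have hp : ∀ i, HomTrivial W E 1 (a i - C.deg E (a i) • e) := fun i => by
    have := homTrivial_of_deg (W := W) (X := E) (x := a i - C.deg E (a i) • e)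
      (by rw [hE]; exact Submodule.sub_mem _ (ha i) (Submodule.smul_mem _ _ he))
      (by rw [map_sub, map_smul, hd, smul_eq_mul, mul_one, sub_self])
    rwa [hE] at this
  have hq : ∀ i, HomTrivial W E' 1 (b i - C.deg E' (b i) • e') := fun i => by
    have := homTrivial_of_deg (W := W) (X := E') (x := b i - C.deg E' (b i) • e')
      (by rw [hE']; exact Submodule.sub_mem _ (hb i) (Submodule.smul_mem _ _ he'))
      (by rw [map_sub, map_smul, hd', smul_eq_mul, mul_one, sub_self])
    rwa [hE'] at this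
  refine ⟨∑ i, C.deg E' (b i) • (a i - C.deg E (a i) • e), ∑ i, C.deg E (a i) • b i,
    Submodule.sum_mem _ fun i _ => Submodule.smul_mem _ _ (hp i).1,
    Submodule.sum_mem _ fun i _ => Submodule.smul_mem _ _ (hb i), ?_⟩
  rw [ext_sum_right, ext_sum_left, ← Finset.sum_add_distrib, hsum]
  refine Finset.sum_congr rfl fun i _ => ?_
  have h4 : extProd C (a i) (b i) = (C.ext e (C.deg E (a i) • b i) +
      C.ext (C.deg E' (b i) • (a i - C.deg E (a i) • e)) e') +
      C.ext (a i - C.deg E (a i) • e) (b i - C.deg E' (b i) • e') := by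
    rw [extProd_eq]
    simp only [ChowTheory.ext, map_sub, map_smul]
    simp only [Algebra.smul_def]
    ring
  rw [h4, h _ _ (hp i) (hq i), add_zero]

theorem zero_tfae (hC : C.Polarized) (hP : PointsArePairs C) :
    [ ∀ E E' : 𝒱.Obj, E.dim = 1 → E'.dim = 1 → InjOnHom A (E.prod E') 2,
      ∀ X : 𝒱.Obj, DomByCurves C X → InjOnHom A X X.dim,
      ∀ (S : 𝒱.Obj) (D D' : C.CH S), S.dim = 2 → AlgTrivial W S 1 D → AlgTrivial W S 1 D' →
        D * D' = 0,
      ∀ (X : 𝒱.Obj) (m n : ℕ) (x y : C.CH X), AlgTrivial W X m x → AlgTrivial W X n y →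
        x * y = 0,
      ∀ (X Y : 𝒱.Obj) (m n : ℕ) (x : C.CH X) (y : C.CH Y), AlgTrivial W X m x →
        AlgTrivial W Y n y → extProd C x y = 0,
      ∀ (X Y : 𝒱.Obj) (m c : ℕ) (x : C.CH X) (γ : C.CH (X.prod Y)), AlgTrivial W X m x →
        AlgTrivial W (X.prod Y) c γ → corrAct C γ x = 0,
      ∀ (E E' : 𝒱.Obj) (e : C.CH E) (e' : C.CH E'), E.dim = 1 → E'.dim = 1 → InCH C E 1 e →
        InCH C E' 1 e' → C.deg E e = 1 → C.deg E' e' = 1 → ∀ x, InCH C (E.prod E') 2 x →
        ∃ (a : C.CH E) (b : C.CH E'), InCH C E 1 a ∧ InCH C E' 1 b ∧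
          x = extProd C e b + extProd C a e' ].TFAE := by
  have hb : (∀ (E E' : 𝒱.Obj) (y : C.CH E) (y' : C.CH E'), E.dim = 1 → E'.dim = 1 →
      HomTrivial W E 1 y → HomTrivial W E' 1 y' → C.ext y y' = 0) →
      ∀ (X Y : 𝒱.Obj) (m n : ℕ) (x : C.CH X) (y : C.CH Y), AlgTrivial W X m x →
        AlgTrivial W Y n y → extProd C x y = 0 := by
    intro h X Y m n x y hx hy
    obtain ⟨ι, _, E, α, u, hE, hα, hu, rfl⟩ := hx
    obtain ⟨κ, _, E', β, u', hE', hβ, hu', rfl⟩ := hy
    rw [extProd_eq, ext_sum_left]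
    refine Finset.sum_eq_zero fun i _ => ?_
    rw [ext_sum_right]
    refine Finset.sum_eq_zero fun j _ => ?_
    rw [corrAct_eq, corrAct_eq, ← act_opMg_ext, ← act_opLg_ext,
      h _ _ _ _ (hE i) (hE' j) (hu i) (hu' j), map_zero, map_zero]
  tfae_have 1 → 5 := by
    intro h
    refine hb fun E E' y y' hE hE' hy hy' => ?_
    have h1 : HomTrivial W E' 1 y' := hy'
    have h2 : mulExt C E y' ∈ C.gr (E.prod (E.prod E')) (E.dim + 1) := mulExt_mem hy'.1
    rw [← act_mulExt]
    refine h E E' hE hE' _ (hy.act h2 (by rw [hE])) ?_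
    rw [aj_act A (c := E.dim + 1) h2 (by rw [hE]) hy]
    exact A.corr_eq_zero 1 2 (E.dim + 1) 1 _ h2 (by rw [hE]) rfl
      ((mulExt_homTrivial hy').kills 1) _
  tfae_have 5 → 2 := fun h X hX =>
    InjOnHom.dominated A (fun P hPc => injOnHom_curveProd A hC hP h hPc) hX
  tfae_have 2 → 1 := by
    intro h E E' hE hE'
    have h1 : (E.prod E').dim = 2 := by rw [dim_prod, hE, hE']
    have h2 := h (E.prod E') ⟨E.prod E', 𝟙 _, 0, 1, 1, .prod (.curve hE) (.curve hE'),
      by rw [zero_add], C.one_mem _, one_ne_zero, by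
        change C.push (𝟙 _) 1 = _
        rw [C.push_id, one_smul]⟩
    rwa [h1] at h2
  tfae_have 5 → 4 := by
    intro h X m n x y hx hy
    have h1 : C.ext x y = 0 := h X X m n x y hx hy
    rw [← C.pull_diag_ext, h1, map_zero]
  tfae_have 4 → 3 := fun h S D D' _ hD hD' => h S 1 1 D D' hD hD'
  tfae_have 3 → 5 := by
    intro h
    refine hb fun E E' y y' hE hE' hy hy' => ?_
    exact h (E.prod E') _ _ (by rw [dim_prod, hE, hE']) ((algTrivial_self hE hy).pull _)
      ((algTrivial_self hE' hy').pull _)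
  tfae_have 4 → 6 := by
    intro h X Y m c x γ hx hγ
    rw [corrAct_eq, C.act_apply, h _ c m γ _ hγ (hx.pull _), map_zero]
  tfae_have 6 → 5 := by
    intro h X Y m n x y hx hy
    rw [extProd_eq, ← act_mulExt]
    refine h X _ m (X.dim + n) x _ hx ?_
    exact (hy.pull _).push _ (by rw [dim_prod, dim_prod]; omega)
  tfae_have 5 → 7 := by
    intro h E E' e e' hE hE' he he' hd hd' x hx
    refine decompose_curves hP hE hE' he he' hd hd' (W := W) (fun y y' hy hy' => ?_) hx
    exact h E E' 1 1 y y' (algTrivial_self hE hy) (algTrivial_self hE' hy')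
  tfae_have 7 → 5 := by
    intro h
    refine hb fun E E' y y' hE hE' hy hy' => ?_
    obtain ⟨e, he, hd⟩ := exists_deg_one hC hE
    obtain ⟨e', he', hd'⟩ := exists_deg_one hC hE'
    obtain ⟨a, b, ha, hb', hx⟩ := h E E' e e' hE hE' he he' hd hd' (C.ext y y')
      (C.ext_mem hy.1 hy'.1)
    rw [extProd_eq, extProd_eq] at hx
    have h1 := congrArg (C.push (snd E E')) hx
    have h2 := congrArg (C.push (fst E E')) hx
    rw [map_add, push_snd_ext, push_snd_ext, push_snd_ext, HomTrivial.deg_self W hy, zero_smul,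
      hd, one_smul] at h1
    rw [map_add, push_fst_ext, push_fst_ext, push_fst_ext, HomTrivial.deg_self W hy', zero_smul,
      hd', one_smul] at h2
    have h3 : b = -(C.deg E a • e') := (neg_eq_of_add_eq_zero_left h1.symm).symm
    have h4 : C.deg E' b = -C.deg E a := by
      rw [h3, map_neg, map_smul, hd', smul_eq_mul, mul_one]
    have h5 : a = C.deg E a • e := by
      have : a = -(C.deg E' b • e) := (neg_eq_of_add_eq_zero_right h2.symm).symm
      rw [h4, neg_smul, neg_neg] at this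
      exact this
    rw [hx, h3]
    conv_lhs => rw [h5]
    have h6 : C.deg E (C.deg E a • e) = C.deg E a := by
      rw [map_smul, hd, smul_eq_mul, mul_one]
    rw [h6, ext_smul_left]
    have h7 : C.ext e (-(C.deg E a • e')) = -(C.deg E a • C.ext e e') := by
      rw [ChowTheory.ext, map_neg, map_smul, mul_neg, mul_smul_comm, ChowTheory.ext]
    rw [h7, neg_add_cancel]
  tfae_finish

end Pool.Agent.T6.H15.AJ
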